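import Mathlib
import Pool.Agent.Helper38.SG.CalcE
import Pool.Agent.Helper38.SG.LinA

/-! # Sobolev gap, piece IWA, first part: `exp 𝔫` is a group -/

open Filter Topology Set
open scoped RealInnerProductSpace ContDiff Nat
open Pool.Agent.Helper38.SG

universe u

namespace Pool.Agent.Helper65.SG

section eig
variable {E : Type*} [NormedAddCommGroup E] [NormedSpace ℝ E] [CompleteSpace E]

theorem exp_eig (T : E →L[ℝ] E) {v : E} {μ : ℝ} (h : T v = μ • v) :
    NormedSpace.exp T v = Real.exp μ • v := by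
  have h1 : HasSum (fun n : ℕ => ((n ! : ℝ)⁻¹ • T ^ n) v) (NormedSpace.exp T v) := by
    have h0 := NormedSpace.exp_series_hasSum_exp' (𝕂 := ℝ) T
    have h0' := ContinuousLinearMap.hasSum (ContinuousLinearMap.apply ℝ E v) h0
    exact h0'
  have hp : ∀ n : ℕ, (T ^ n) v = μ ^ n • v := by
    intro n
    induction n with
    | zero => simp
    | succ n ih => rw [pow_succ, mul_apply_eq_comp, h, map_smul, ih, smul_smul,
        pow_succ, mul_comm]
  have h2 : HasSum (fun n : ℕ => ((n ! : ℝ)⁻¹ • μ ^ n) • v) (Real.exp μ • v) := by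
    have h3 := NormedSpace.exp_series_hasSum_exp' (𝕂 := ℝ) μ
    rw [← Real.exp_eq_exp_ℝ] at h3
    exact h3.smul_const v
  refine h1.unique ?_
  have h4 : (fun n : ℕ => ((n ! : ℝ)⁻¹ • T ^ n) v) = fun n : ℕ => ((n ! : ℝ)⁻¹ • μ ^ n) • v := by
    funext n
    rw [_root_.smul_apply, hp, smul_assoc]
  rw [h4]
  exact h2

end eig

variable {G 𝔤 : Type u} [Group G] [TopologicalSpace G] [IsTopologicalGroup G]
  [NormedAddCommGroup 𝔤] [InnerProductSpace ℝ 𝔤] [FiniteDimensional ℝ 𝔤] (P : ParData G 𝔤)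

theorem Ad_exp_eig {X v : 𝔤} {μ : ℝ} (h : P.br X v = μ • v) :
    P.Ad (P.exp X) v = Real.exp μ • v := by
  rw [P.Ad_exp]
  exact exp_eig _ h

/-- conjugation by `exp (-H0)` -/
noncomputable def cA : 𝔤 →ₗ[ℝ] 𝔤 := P.Ad (P.exp (-(P.H0 : 𝔤)))

theorem cA_eig {v : 𝔤} {μ : ℝ} (h : P.br P.H0 v = μ • v) (k : ℕ) :
    (cA P ^ k) v = Real.exp (-μ) ^ k • v := by
  induction k with
  | zero => simp
  | succ k ih =>
    have h1 : cA P v = Real.exp (-μ) • v := by
      refine Ad_exp_eig P ?_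
      rw [map_neg, LinearMap.neg_apply, h, neg_smul]
    rw [pow_succ, Module.End.mul_apply, h1, map_smul, ih, smul_smul, pow_succ, mul_comm]

theorem tendsto_cA_pow {X : 𝔤} (hX : X ∈ P.𝔫) :
    Tendsto (fun k : ℕ => (cA P ^ k) X) atTop (𝓝 0) := by
  unfold ParData.𝔫 at hX
  induction hX using Submodule.iSup_induction' with
  | mem μ x hx =>
    rw [Module.End.mem_eigenspace_iff] at hx
    simp only [cA_eig P hx]
    have h1 : Real.exp (-(μ : ℝ)) < 1 := by
      rw [Real.exp_lt_one_iff]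
      have := μ.2
      rw [mem_Ioi] at this
      linarith
    have h2 := (tendsto_pow_atTop_nhds_zero_of_lt_one (Real.exp_pos _).le h1).smul_const x
    rwa [zero_smul] at h2
  | zero => simp
  | add x y _ _ hx hy =>
    have := hx.add hy
    rw [add_zero] at this
    simpa only [map_add] using this

omit [IsTopologicalGroup G] in
theorem ad_H0_symm : (P.br (P.H0 : 𝔤)).IsSymmetric := fun X Y =>
  P.ad_symm P.H0.2 X Y

theorem mem_𝔫_of_tendsto {v : 𝔤} (h : Tendsto (fun k : ℕ => (cA P ^ k) v) atTop (𝓝 0)) :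
    v ∈ P.𝔫 := by
  let b := (ad_H0_symm P).eigenvectorBasis rfl
  let μ := (ad_H0_symm P).eigenvalues rfl
  have hb : ∀ i, P.br P.H0 (b i) = μ i • b i := fun i =>
    (ad_H0_symm P).apply_eigenvectorBasis rfl i
  have h1 : ∀ (k : ℕ) i, ⟪b i, (cA P ^ k) v⟫ = Real.exp (-(μ i)) ^ k * ⟪b i, v⟫ := by
    intro k i
    have h2 : (cA P ^ k) v = ∑ j, (Real.exp (-(μ j)) ^ k * ⟪b j, v⟫) • b j := by
      conv_lhs => rw [← b.sum_repr' v, map_sum]
      refine Finset.sum_congr rfl fun j _ => ?_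
      rw [map_smul, cA_eig P (hb j), smul_smul, mul_comm]
    rw [h2]
    exact b.orthonormal.inner_right_fintype _ i
  have h3 : ∀ i, μ i ≤ 0 → ⟪b i, v⟫ = 0 := by
    intro i hi
    have h4 : Tendsto (fun k : ℕ => |⟪b i, (cA P ^ k) v⟫|) atTop (𝓝 0) := by
      have := (((innerSL ℝ (b i)).continuous.tendsto 0).comp h).abs
      rw [map_zero, abs_zero] at this
      exact this
    have h5 : |⟪b i, v⟫| ≤ 0 := by
      refine ge_of_tendsto' h4 fun k => ?_
      rw [h1, abs_mul]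
      refine le_mul_of_one_le_left (abs_nonneg _) ?_
      rw [abs_of_pos (pow_pos (Real.exp_pos _) _)]
      exact one_le_pow₀ (Real.one_le_exp (by linarith))
    exact abs_nonpos_iff.1 h5
  rw [← b.sum_repr' v]
  refine Submodule.sum_mem _ fun i _ => ?_
  by_cases hi : 0 < μ i
  · refine Submodule.smul_mem _ _ ?_
    unfold ParData.𝔫
    refine Submodule.mem_iSup_of_mem (p := fun μ : Set.Ioi (0 : ℝ) =>
      Module.End.eigenspace (P.br P.H0) (μ : ℝ)) ⟨μ i, hi⟩ ?_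
    exact Module.End.mem_eigenspace_iff.2 (hb i)
  · rw [h3 i (not_lt.1 hi), zero_smul]
    exact Submodule.zero_mem _

variable [T2Space G]

theorem Ad_exp_𝔫' {H : 𝔤} (hH : H ∈ P.𝔞) {X : 𝔤} (hX : X ∈ P.𝔫) :
    P.Ad (P.exp H) X ∈ P.𝔫 :=
  P.Ad_exp_mem P.𝔫 (fun _ hY => P.br_ker_𝔫 P.br_self P.jacobi (P.br_𝔞 _ P.H0.2 _ hH) hY) hX

/-- elements contracted by `exp (-H0)` are in `exp 𝔫` -/
theorem exists_log_𝔫 (g : G)
    (h : Tendsto (fun k : ℕ => P.exp (-(P.H0 : 𝔤)) ^ k * g * (P.exp (-(P.H0 : 𝔤)) ^ k)⁻¹)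
      atTop (𝓝 1)) : ∃ Z ∈ P.𝔫, g = P.exp Z := by
  set a := P.exp (-(P.H0 : 𝔤)) with ha
  obtain ⟨e, he0, he⟩ := P.exp_chart
  have he1 : e 0 = 1 := by rw [he 0 he0, P.exp_zero]
  have h1t : (1 : G) ∈ e.target := he1 ▸ e.map_source he0
  have hs1 : e.symm 1 = 0 := by rw [← he1]; exact e.left_inv he0
  let gk : ℕ → G := fun k => a ^ k * g * (a ^ k)⁻¹
  let v : ℕ → 𝔤 := fun k => e.symm (gk k)
  have hv : Tendsto v atTop (𝓝 0) := by
    have h2 : ContinuousAt e.symm 1 := e.continuousAt_symm h1t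
    have h3 := h2.tendsto.comp h
    rw [hs1] at h3
    exact h3
  have hA : Continuous (cA P) := LinearMap.continuous_of_finiteDimensional _
  have hev : ∀ᶠ k in atTop, gk k ∈ e.target ∧ cA P (v k) ∈ e.source := by
    refine (h.eventually_mem (e.open_target.mem_nhds h1t)).and ?_
    have h4 : Tendsto (fun k => cA P (v k)) atTop (𝓝 0) := by
      have := (hA.tendsto 0).comp hv
      rwa [map_zero] at this
    exact h4.eventually_mem (e.open_source.mem_nhds he0)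
  obtain ⟨k0, hk0⟩ := eventually_atTop.1 hev
  have hgv : ∀ k ≥ k0, P.exp (v k) = gk k := by
    intro k hk
    have h5 := (hk0 k hk).1
    rw [← he _ (e.map_target h5)]
    exact e.right_inv h5
  have hstep : ∀ k ≥ k0, v (k + 1) = cA P (v k) := by
    intro k hk
    refine e.injOn (e.map_target (hk0 (k + 1) (by omega)).1) (hk0 k hk).2 ?_
    rw [he _ (hk0 k hk).2, he _ (e.map_target (hk0 (k + 1) (by omega)).1),
      hgv (k + 1) (by omega), cA, P.exp_Ad, hgv k hk, ← ha]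
    simp only [gk, pow_succ']
    group
  have hpow : ∀ j, v (k0 + j) = (cA P ^ j) (v k0) := by
    intro j
    induction j with
    | zero => simp
    | succ j ih =>
      rw [← add_assoc, hstep _ (by omega), ih, pow_succ', Module.End.mul_apply]
  have hv0 : v k0 ∈ P.𝔫 := by
    refine mem_𝔫_of_tendsto P ?_
    simp only [← hpow]
    exact hv.comp (tendsto_add_atTop_nat k0 |>.congr fun j => add_comm _ _)
  have hinv : ∀ j : ℕ, ∀ X ∈ P.𝔫, P.Ad ((a ^ j)⁻¹) X ∈ P.𝔫 := by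
    intro j X hX
    have h6 : (a ^ j)⁻¹ = P.exp ((j : ℝ) • (P.H0 : 𝔤)) := by
      rw [P.exp_nsmul, ha, P.exp_neg, inv_pow, inv_inv]
    rw [h6]
    exact Ad_exp_𝔫' P (P.𝔞.smul_mem _ P.H0.2) hX
  refine ⟨P.Ad ((a ^ k0)⁻¹) (v k0), hinv _ _ hv0, ?_⟩
  rw [P.exp_Ad, hgv k0 le_rfl]
  simp only [gk]
  group

omit [IsTopologicalGroup G] [FiniteDimensional ℝ 𝔤] [T2Space G] in
theorem exp_cA_pow (X : 𝔤) (k : ℕ) : P.exp ((cA P ^ k) X) =
    P.exp (-(P.H0 : 𝔤)) ^ k * P.exp X * (P.exp (-(P.H0 : 𝔤)) ^ k)⁻¹ := by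
  have h : cA P ^ k = P.Ad (P.exp (-(P.H0 : 𝔤)) ^ k) := by rw [map_pow]; rfl
  rw [h, P.exp_Ad]

/-- `exp 𝔫` is closed under multiplication. -/
theorem exp_𝔫_mul {X Y : 𝔤} (hX : X ∈ P.𝔫) (hY : Y ∈ P.𝔫) :
    ∃ Z ∈ P.𝔫, P.exp X * P.exp Y = P.exp Z := by
  refine exists_log_𝔫 P _ ?_
  have h1 : Tendsto (fun k : ℕ => P.exp ((cA P ^ k) X) * P.exp ((cA P ^ k) Y)) atTop (𝓝 1) := by
    have hx := (P.continuous_exp.tendsto 0).comp (tendsto_cA_pow P hX)
    have hy := (P.continuous_exp.tendsto 0).comp (tendsto_cA_pow P hY)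
    rw [P.exp_zero] at hx hy
    have := hx.mul hy
    rwa [mul_one] at this
  refine h1.congr fun k => ?_
  rw [exp_cA_pow, exp_cA_pow]
  group

end Pool.Agent.Helper65.SG
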