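import Mathlib
import Pool.Agent.Helper65.SG.IwaA
import Pool.Agent.Helper38.SG.CalcD

/-! # Sobolev gap, piece IWA: Iwasawa decomposition -/

open Filter Topology Set
open scoped RealInnerProductSpace ContDiff
open Pool.Agent.Helper38.SG

universe u

namespace Pool.Agent.Helper65.SG

variable {G 𝔤 : Type u} [Group G] [TopologicalSpace G] [IsTopologicalGroup G] [T2Space G]
  [NormedAddCommGroup 𝔤] [InnerProductSpace ℝ 𝔤] [FiniteDimensional ℝ 𝔤] (P : ParData G 𝔤)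

theorem exp_add_𝔞' {H H' : 𝔤} (hH : H ∈ P.𝔞) (hH' : H' ∈ P.𝔞) :
    P.exp (H + H') = P.exp H * P.exp H' :=
  P.exp_add_of_comm (P.br_𝔞 H hH H' hH')

/-- the set `K A N` -/
def IsIwa (k : G) (H : 𝔤) (x : G) : Prop :=
  k ∈ P.K ∧ H ∈ P.𝔞 ∧ ∃ X ∈ P.𝔫, x = k * P.exp H * P.exp X

/-- local coordinates on the left -/
theorem exists_local : ∃ z : 𝔤 → 𝔤, ContinuousAt z 0 ∧ z 0 = 0 ∧
    ∀ᶠ W in 𝓝 (0 : 𝔤), ∀ k H x, IsIwa P k H x →
      IsIwa P (k * P.exp (P.pK (z (P.Ad k⁻¹ W)))) (P.Ea (z (P.Ad k⁻¹ W)) + H) (P.exp W * x) := by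
  have hT : ([P.pK, P.Ea, P.pN] : List (𝔤 →L[ℝ] 𝔤)).sum = ContinuousLinearMap.id ℝ 𝔤 := by
    ext X
    simp only [List.sum_cons, List.sum_nil, add_zero, _root_.add_apply,
      ContinuousLinearMap.id_apply]
    rw [← add_assoc]
    exact (P.iwasawa_decomp P.br_self P.jacobi X).symm
  obtain ⟨z, hz, hz0, -, hzexp⟩ := P.exists_prod_coord [P.pK, P.Ea, P.pN] hT
  refine ⟨z, hz.continuousAt, hz0, ?_⟩
  obtain ⟨ε, hε, hball⟩ := Metric.eventually_nhds_iff_ball.1 hzexp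
  filter_upwards [Metric.ball_mem_nhds (0 : 𝔤) hε] with W hW k H x hx
  obtain ⟨hk, hH, X, hX, rfl⟩ := hx
  have hnorm : ‖P.Ad k⁻¹ W‖ = ‖W‖ := by
    have h1 := P.Ad_isom k⁻¹ (inv_mem hk) W W
    rw [real_inner_self_eq_norm_sq, real_inner_self_eq_norm_sq] at h1
    exact (sq_eq_sq₀ (norm_nonneg _) (norm_nonneg _)).1 h1
  have hW' := hball (P.Ad k⁻¹ W) (by
    rw [mem_ball_zero_iff] at hW ⊢
    rwa [hnorm])
  simp only [List.map_cons, List.map_nil, List.prod_cons, List.prod_nil, mul_one] at hW'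
  generalize z (P.Ad k⁻¹ W) = y at hW' ⊢
  have hEa : P.Ea y ∈ P.𝔞 := by
    unfold ParData.Ea
    exact Submodule.starProjection_apply_mem _ _
  have hpN : P.pN y ∈ P.𝔫 := P.pN_mem P.br_self P.jacobi _
  have hpK : P.pK y ∈ P.𝔨 := P.pK_mem P.br_self P.jacobi _
  obtain ⟨Z, hZ, hZe⟩ := exp_𝔫_mul P (Ad_exp_𝔫' P (neg_mem hH) hpN) hX
  refine ⟨mul_mem hk (ParData.exp_mem (⟨_, hpK⟩ : P.𝔨)), add_mem hEa hH, Z, hZ, ?_⟩
  rw [P.exp_Ad, inv_inv] at hW'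
  rw [P.exp_Ad, P.exp_neg, inv_inv] at hZe
  rw [exp_add_𝔞' P hEa hH, ← hZe]
  calc P.exp W * (k * P.exp H * P.exp X)
      = k * (k⁻¹ * P.exp W * k) * P.exp H * P.exp X := by group
    _ = k * (P.exp (P.pK y) * (P.exp (P.Ea y) * P.exp (P.pN y))) * P.exp H * P.exp X := by
        rw [hW']
    _ = _ := by group

theorem exists_iwa (x : G) : ∃ k H, IsIwa P k H x := by
  obtain ⟨z, -, -, hev⟩ := exists_local P
  have h1 : ∀ X : 𝔤, ∀ x, (∃ k H, IsIwa P k H x) → ∃ k H, IsIwa P k H (P.exp X * x) := by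
    intro X
    have ht : Tendsto (fun n : ℕ => ((n : ℝ) + 1)⁻¹ • X) atTop (𝓝 0) := by
      have h2 : Tendsto (fun n : ℕ => ((n : ℝ) + 1)⁻¹) atTop (𝓝 0) := by
        have := tendsto_one_div_add_atTop_nhds_zero_nat (𝕜 := ℝ)
        simpa only [one_div] using this
      have h3 := h2.smul_const X
      rwa [zero_smul] at h3
    obtain ⟨n, hn⟩ := (ht.eventually hev).exists
    have h4 : ∀ m : ℕ, ∀ x, (∃ k H, IsIwa P k H x) →
        ∃ k H, IsIwa P k H (P.exp (((n : ℝ) + 1)⁻¹ • X) ^ m * x) := by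
      intro m
      induction m with
      | zero => intro x hx; simpa using hx
      | succ m ih =>
        intro x hx
        obtain ⟨k, H, h5⟩ := ih x hx
        rw [pow_succ', mul_assoc]
        exact ⟨_, _, hn k H _ h5⟩
    intro x hx
    have h6 := h4 (n + 1) x hx
    rw [← P.exp_nsmul, smul_smul, Nat.cast_add, Nat.cast_one,
      mul_inv_cancel₀ (by positivity), one_smul] at h6
    exact h6
  obtain ⟨⟨k, X⟩, hkX⟩ := P.polar.surjective x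
  have h7 : IsIwa P (1 : G) (0 : 𝔤) (1 : G) :=
    ⟨one_mem _, zero_mem _, 0, zero_mem _, by rw [P.exp_zero, one_mul, one_mul]⟩
  obtain ⟨k', H, h8, h9, Y, h10, h11⟩ := h1 (X : 𝔤) 1 ⟨1, 0, h7⟩
  rw [mul_one] at h11
  refine ⟨(k : G) * k', H, mul_mem k.2 h8, h9, Y, h10, ?_⟩
  rw [← hkX]
  simp only
  rw [h11]
  group

/-- `exp H exp X ∈ K` implies `H = 0`, `X = 0` -/
theorem iwa_inj {H X : 𝔤} (hH : H ∈ P.𝔞) (hX : X ∈ P.𝔫) (hk : P.exp H * P.exp X ∈ P.K) :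
    H = 0 ∧ X = 0 := by
  have hH0 : (P.H0 : 𝔤) ∈ P.𝔞 := P.H0.2
  obtain ⟨hn1, hn2⟩ := P.exp_ad_H0 P.br_self P.jacobi hX
  set n := NormedSpace.exp (LinearMap.toContinuousLinearMap (P.br X)) (P.H0 : 𝔤) - P.H0 with hn
  have h1 : P.Ad (P.exp X) P.H0 = P.H0 + n := by
    rw [P.Ad_exp, hn]; abel
  have h2 : P.Ad (P.exp H) P.H0 = P.H0 := P.Ad_exp_eq_self (P.br_𝔞 H hH _ hH0)
  have h3 : P.Ad (P.exp H * P.exp X) P.H0 = P.H0 + P.Ad (P.exp H) n := by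
    rw [map_mul, Module.End.mul_apply, h1, map_add, h2]
  have h4 : P.Ad (P.exp H) n ∈ P.𝔫 := Ad_exp_𝔫' P hH hn1
  have h5 : ⟪(P.H0 : 𝔤), P.Ad (P.exp H) n⟫ = 0 := P.inner_𝔞_𝔫 P.br_self P.jacobi hH0 h4
  have h5' : ⟪P.Ad (P.exp H) n, (P.H0 : 𝔤)⟫ = 0 := by rw [real_inner_comm]; exact h5
  have h6 := P.Ad_isom _ hk (P.H0 : 𝔤) P.H0
  rw [h3, inner_add_left, inner_add_right, inner_add_right, h5, h5', add_zero,
    zero_add, add_eq_left, inner_self_eq_zero] at h6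
  have h7 : n = 0 := by
    have h8 : P.Ad (P.exp (-H)) (P.Ad (P.exp H) n) = n := by
      rw [← Module.End.mul_apply, ← map_mul, P.exp_neg, inv_mul_cancel, map_one,
        Module.End.one_apply]
    rw [← h8, h6, map_zero]
  have hX0 : X = 0 := hn2 (sub_eq_zero.1 h7)
  subst hX0
  rw [P.exp_zero, mul_one] at hk
  refine ⟨?_, rfl⟩
  have h9 := P.polar.injective (a₁ := (⟨1, one_mem _⟩, ⟨H, P.θ_𝔞 H hH⟩))
    (a₂ := (⟨P.exp H, hk⟩, ⟨0, by rw [map_zero, neg_zero]⟩)) (by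
      simp only [P.exp_zero, mul_one, one_mul])
  have h10 := congrArg (fun y : P.K × {X : 𝔤 // P.θ X = -X} => (y.2 : 𝔤)) h9
  exact h10

theorem iwa_unique {k k' x : G} {H H' : 𝔤} (h : IsIwa P k H x) (h' : IsIwa P k' H' x) :
    k = k' ∧ H = H' := by
  obtain ⟨hk, hH, X, hX, hx⟩ := h
  obtain ⟨hk', hH', X', hX', hx'⟩ := h'
  obtain ⟨Z, hZ, hZe⟩ := exp_𝔫_mul P hX' (neg_mem hX)
  have h1 : k'⁻¹ * k = P.exp (H' + -H) * P.exp (P.Ad (P.exp (-(-H))) Z) := by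
    rw [exp_add_𝔞' P hH' (neg_mem hH), P.exp_Ad, ← hZe, neg_neg, P.exp_neg, P.exp_neg]
    have h2 : k = k' * P.exp H' * P.exp X' * (P.exp X)⁻¹ * (P.exp H)⁻¹ := by
      rw [← hx', hx]; group
    conv_lhs => rw [h2]
    group
  have h3 : P.exp (H' + -H) * P.exp (P.Ad (P.exp (-(-H))) Z) ∈ P.K :=
    h1 ▸ mul_mem (inv_mem hk') hk
  obtain ⟨h4, h5⟩ := iwa_inj P (add_mem hH' (neg_mem hH))
    (Ad_exp_𝔫' P (neg_mem (neg_mem hH)) hZ) h3
  rw [h4, h5, P.exp_zero, mul_one, inv_mul_eq_one] at h1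
  exact ⟨h1.symm, (add_neg_eq_zero.1 h4).symm⟩

theorem exists_iwasawa : ∃ (κ : G → G) (η : G → 𝔤), Continuous κ ∧ Continuous η ∧
    (∀ x, κ x ∈ P.K) ∧ (∀ x, η x ∈ P.𝔞) ∧
    (∀ x, ∃ X ∈ P.𝔫, x = κ x * P.exp (η x) * P.exp X) ∧
    (∀ k ∈ P.K, ∀ H ∈ P.𝔞, ∀ X ∈ P.𝔫, κ (k * P.exp H * P.exp X) = k ∧
      η (k * P.exp H * P.exp X) = H) := by
  choose κ η h using exists_iwa P
  have huniq : ∀ {k H x}, IsIwa P k H x → κ x = k ∧ η x = H := fun hx =>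
    iwa_unique P (h _) hx
  obtain ⟨z, hz, hz0, hev⟩ := exists_local P
  have hnhds : ∀ x : G, 𝓝 x = map (fun W : 𝔤 => P.exp W * x) (𝓝 0) := by
    intro x
    have h1 : map (fun y : G => y * x) (𝓝 1) = 𝓝 x := by
      have := map_mul_right_nhds x (1 : G)
      rwa [one_mul] at this
    rw [← h1, ← P.map_exp_nhds_zero, map_map]
    rfl
  have hzt : ∀ k : G, Tendsto (fun W => z (P.Ad k⁻¹ W)) (𝓝 0) (𝓝 0) := by
    intro k
    have h1 : Tendsto (P.Ad k⁻¹) (𝓝 0) (𝓝 0) := by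
      have := (LinearMap.continuous_of_finiteDimensional (P.Ad k⁻¹)).tendsto 0
      rwa [map_zero] at this
    have h2 : Tendsto z (𝓝 0) (𝓝 0) := by
      have := hz.tendsto
      rwa [hz0] at this
    exact h2.comp h1
  refine ⟨κ, η, ?_, ?_, fun x => (h x).1, fun x => (h x).2.1, fun x => (h x).2.2,
    fun k hk H hH X hX => huniq ⟨hk, hH, X, hX, rfl⟩⟩
  · refine continuous_iff_continuousAt.2 fun x => ?_
    rw [ContinuousAt, hnhds x, tendsto_map'_iff]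
    have h1 : Tendsto (fun W => κ x * P.exp (P.pK (z (P.Ad (κ x)⁻¹ W)))) (𝓝 0) (𝓝 (κ x)) := by
      have h2 : Tendsto (fun y : 𝔤 => κ x * P.exp (P.pK y)) (𝓝 0) (𝓝 (κ x * P.exp (P.pK 0))) :=
        (continuous_const.mul (P.continuous_exp.comp P.pK.continuous)).tendsto 0
      rw [map_zero, P.exp_zero, mul_one] at h2
      exact h2.comp (hzt _)
    refine h1.congr' ?_
    filter_upwards [hev] with W hW
    exact (huniq (hW _ _ _ (h x))).1.symm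
  · refine continuous_iff_continuousAt.2 fun x => ?_
    rw [ContinuousAt, hnhds x, tendsto_map'_iff]
    have h1 : Tendsto (fun W => P.Ea (z (P.Ad (κ x)⁻¹ W)) + η x) (𝓝 0) (𝓝 (η x)) := by
      have h2 : Tendsto (fun y : 𝔤 => P.Ea y + η x) (𝓝 0) (𝓝 (P.Ea 0 + η x)) :=
        (P.Ea.continuous.add continuous_const).tendsto 0
      rw [map_zero, zero_add] at h2
      exact h2.comp (hzt _)
    refine h1.congr' ?_
    filter_upwards [hev] with W hW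
    exact (huniq (hW _ _ _ (h x))).2.symm

end Pool.Agent.Helper65.SG
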