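import Mathlib
import Pool.Agent.Helper38.SG.Iwa2
import Pool.Agent.Helper38.SG.RepB

/-! # Sobolev gap, piece SMO-A: smoothness of `K`-finite induced functions -/

open Filter Topology Set
open scoped RealInnerProductSpace ContDiff
open Pool.Agent.Helper38.SG

universe u

namespace Pool.Agent.Helper65.SG

variable {G 𝔤 : Type u} [Group G] [TopologicalSpace G] [IsTopologicalGroup G] [T2Space G]
  [NormedAddCommGroup 𝔤] [InnerProductSpace ℝ 𝔤] [FiniteDimensional ℝ 𝔤] {P : ParData G 𝔤}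

omit [IsTopologicalGroup G] [T2Space G] [FiniteDimensional ℝ 𝔤] in
theorem Ad_K_mem {k : G} (hk : k ∈ P.K) {Z : 𝔤} (hZ : Z ∈ P.𝔨) : P.Ad k Z ∈ P.𝔨 := by
  rw [P.mem_𝔨] at hZ ⊢
  rw [← P.Ad_θ k hk, hZ]

/-- SMO-A:continuous `K`-finite functions transforming by a character under `A` and invariant
under `N` are smooth. -/
theorem smooth_of_kfinite {F : Type*} [NormedAddCommGroup F] [NormedSpace ℂ F]
    [FiniteDimensional ℂ F] (f : G → F) (hf : Continuous f) (hK : KFinite P f)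
    (χ : 𝔤 →ₗ[ℝ] ℂ) (hA : ∀ x, ∀ H ∈ P.𝔞, f (x * P.exp H) = Complex.exp (χ H) • f x)
    (hN : ∀ x, ∀ X ∈ P.𝔫, f (x * P.exp X) = f x) : P.Smooth f := by
  intro x
  obtain ⟨X0, hX0, hx⟩ := P.exists_𝔫 x
  have hk0 : P.κ x ∈ P.K := P.κ_mem x
  have hH0 : P.η x ∈ P.𝔞 := P.η_mem x
  generalize P.κ x = k0 at hx hk0
  generalize P.η x = H0 at hx hH0
  -- coordinates
  have hT : ([P.pK, P.Ea, P.pN] : List (𝔤 →L[ℝ] 𝔤)).sum = ContinuousLinearMap.id ℝ 𝔤 := by
    ext X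
    simp only [List.sum_cons, List.sum_nil, add_zero, _root_.add_apply,
      ContinuousLinearMap.id_apply]
    rw [← add_assoc]
    exact (P.iwasawa_decomp P.br_self P.jacobi X).symm
  obtain ⟨z, hz, hz0, -, hzexp⟩ := P.exists_prod_coord [P.pK, P.Ea, P.pN] hT
  -- the function along `K`
  have hΦ := kfinite_smooth P f hf hK k0
  let Q : 𝔤 →L[ℝ] P.𝔨 := LinearMap.toContinuousLinearMap
    { toFun := fun X => ⟨P.Ad k0 (P.pK X), Ad_K_mem hk0 (P.pK_mem P.br_self P.jacobi X)⟩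
      map_add' := fun X Y => Subtype.ext (by simp)
      map_smul' := fun a X => Subtype.ext (by simp) }
  have hQ : ∀ X, ((Q X : P.𝔨) : 𝔤) = P.Ad k0 (P.pK X) := fun X => rfl
  let A : 𝔤 →L[ℝ] 𝔤 := LinearMap.toContinuousLinearMap (P.Ad (P.exp H0 * P.exp X0))
  have hAdef : ∀ X, A X = P.Ad (P.exp H0 * P.exp X0) X := fun X => rfl
  let χ' : 𝔤 →L[ℝ] ℂ := LinearMap.toContinuousLinearMap χ
  have hχ' : ∀ X, χ' X = χ X := fun X => rfl
  have hA0 : A 0 = 0 := map_zero A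
  have hzA : ContDiffAt ℝ ∞ (fun W : 𝔤 => z (A W)) 0 := by
    have h1 : ContDiffAt ℝ ∞ z (A 0) := by rw [hA0]; exact hz
    exact h1.comp (0 : 𝔤) A.contDiff.contDiffAt
  have key : (fun W : 𝔤 => f (x * P.exp W)) =ᶠ[𝓝 0] fun W : 𝔤 =>
      Complex.exp (χ H0) • Complex.exp (χ' (P.Ea (z (A W)))) •
        f (P.exp ((Q (z (A W)) : P.𝔨) : 𝔤) * k0) := by
    have hev : ∀ᶠ W in 𝓝 (0 : 𝔤), P.exp (A W) =
        (([P.pK, P.Ea, P.pN] : List (𝔤 →L[ℝ] 𝔤)).map fun T => P.exp (T (z (A W)))).prod := by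
      have ht : Tendsto A (𝓝 0) (𝓝 0) := by
        have := A.continuous.tendsto 0
        rwa [hA0] at this
      exact ht.eventually hzexp
    filter_upwards [hev] with W hW
    simp only [List.map_cons, List.map_nil, List.prod_cons, List.prod_nil, mul_one] at hW
    have hEa : P.Ea (z (A W)) ∈ P.𝔞 := by
      unfold ParData.Ea
      exact Submodule.starProjection_apply_mem _ _
    have hpN : P.pN (z (A W)) ∈ P.𝔫 := P.pN_mem P.br_self P.jacobi _
    generalize z (A W) = y at hW hEa hpN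
    rw [hAdef, P.exp_Ad] at hW
    have e1 : x * P.exp W = k0 * P.exp (P.pK y) * P.exp (P.Ea y) * P.exp H0 *
        P.exp (P.Ad (P.exp (-H0)) (P.pN y)) * P.exp X0 := by
      rw [P.exp_Ad, P.exp_neg, inv_inv, hx]
      calc k0 * P.exp H0 * P.exp X0 * P.exp W
          = k0 * (P.exp H0 * P.exp X0 * P.exp W * (P.exp H0 * P.exp X0)⁻¹) *
            (P.exp H0 * P.exp X0) := by group
        _ = k0 * (P.exp (P.pK y) * (P.exp (P.Ea y) * P.exp (P.pN y))) *
            (P.exp H0 * P.exp X0) := by rw [hW]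
        _ = _ := by group
    rw [e1, hN _ _ hX0, hN _ _ (P.Ad_exp_𝔫 (neg_mem hH0) hpN), hA _ _ hH0, hA _ _ hEa, hχ', hQ,
      P.exp_Ad, inv_mul_cancel_right]
  refine ContDiffAt.congr_of_eventuallyEq ?_ key
  refine ContDiffAt.const_smul _ (ContDiffAt.smul ?_ ?_)
  · exact Complex.contDiff_exp.contDiffAt.comp _
      (χ'.contDiff.contDiffAt.comp _ (P.Ea.contDiff.contDiffAt.comp _ hzA))
  · exact hΦ.contDiffAt.comp _ (Q.contDiff.contDiffAt.comp _ hzA)

end Pool.Agent.Helper65.SG
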