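import Mathlib
import Pool.Agent.Helper38.SG.CalcC
import Pool.Agent.Helper65.SG.SmoA

/-! # Sobolev gap, piece SMO-B: smoothness of `K`-finite induced functions -/

open Filter Topology Set
open scoped RealInnerProductSpace ContDiff
open Pool.Agent.Helper38.SG

universe u

namespace Pool.Agent.Helper65.SG

variable {G 𝔤 : Type u} [Group G] [TopologicalSpace G] [IsTopologicalGroup G] [T2Space G]
  [NormedAddCommGroup 𝔤] [InnerProductSpace ℝ 𝔤] [FiniteDimensional ℝ 𝔤] {P : ParData G 𝔤}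

variable {U : Type u} [NormedAddCommGroup U] [InnerProductSpace ℂ U] {R : RepData P U}

theorem hasDerivAt_zero {f : G → U} (hf : P.Smooth f) (X : 𝔤) (x : G) :
    HasDerivAt (fun t : ℝ => f (P.exp (-(t • X)) * x)) (P.lD X f x) 0 := by
  have h := P.hasDerivAt_lD hf X x 0
  rwa [zero_smul, neg_zero, P.exp_zero, one_mul] at h

/-- SMO-B -/
theorem lDer_iff {f : G → U} (hf : P.Smooth f) (X : 𝔤) (g : G → U) :
    LDer P X f g ↔ g = P.lD X f := by
  constructor
  · intro h
    funext x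
    exact (h x).unique (hasDerivAt_zero hf X x)
  · rintro rfl x
    exact hasDerivAt_zero hf X x

/-- SMO-B -/
theorem IndFun.lD {f : G → U} (hs : P.Smooth f) (hf : IndFun R f) (X : 𝔤) :
    IndFun R (P.lD X f) where
  map_M x m := by
    have h1 := hasDerivAt_zero hs X (x * m)
    have h2 := hasDerivAt_zero hs X x
    let S : U →L[ℂ] U := (R.σ m⁻¹).mkContinuous 1 fun u => by rw [R.norm_σ, one_mul]
    have h3 := (S.restrictScalars ℝ).hasFDerivAt.comp_hasDerivAt (0 : ℝ) h2
    refine h1.unique ?_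
    have h4 : (fun t : ℝ => f (P.exp (-(t • X)) * (x * m))) =
        (S.restrictScalars ℝ) ∘ fun t : ℝ => f (P.exp (-(t • X)) * x) := by
      funext t
      rw [← mul_assoc, hf.map_M]
      rfl
    rw [h4]
    exact h3
  map_A x H hH := by
    have h1 := hasDerivAt_zero hs X (x * P.exp H)
    have h2 := (hasDerivAt_zero hs X x).const_smul
      (Complex.exp (-(Complex.I * (R.ν H : ℝ) + (P.ρ H : ℝ))))
    refine h1.unique ?_
    have h4 : (fun t : ℝ => f (P.exp (-(t • X)) * (x * P.exp H))) =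
        fun t : ℝ => Complex.exp (-(Complex.I * (R.ν H : ℝ) + (P.ρ H : ℝ))) •
          f (P.exp (-(t • X)) * x) := by
      funext t
      rw [← mul_assoc, hf.map_A _ H hH]
    rw [h4]
    exact h2
  map_N x Y hY := by
    have h1 := hasDerivAt_zero hs X (x * P.exp Y)
    have h2 := hasDerivAt_zero hs X x
    refine h1.unique ?_
    have h4 : (fun t : ℝ => f (P.exp (-(t • X)) * (x * P.exp Y))) =
        fun t : ℝ => f (P.exp (-(t • X)) * x) := by
      funext t
      rw [← mul_assoc, hf.map_N _ Y hY]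
    rw [h4]
    exact h2

/-- SMO-B: linearity of the Lie algebra action -/
theorem lD_add_left {F : Type*} [NormedAddCommGroup F] [NormedSpace ℝ F] (X Y : 𝔤) (f : G → F) :
    P.lD (X + Y) f = P.lD X f + P.lD Y f := by
  funext x
  simp only [LieData.lD, LieData.rD, Pi.add_apply, map_add, neg_add]

theorem lD_smul_left {F : Type*} [NormedAddCommGroup F] [NormedSpace ℝ F] (a : ℝ) (X : 𝔤)
    (f : G → F) : P.lD (a • X) f = a • P.lD X f := by
  funext x
  simp only [LieData.lD, LieData.rD, Pi.smul_apply, map_smul, smul_neg]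

theorem differentiableAt_of_smooth {F : Type*} [NormedAddCommGroup F] [NormedSpace ℝ F]
    {f : G → F} (hf : P.Smooth f) (x : G) :
    DifferentiableAt ℝ (fun Y : 𝔤 => f (x * P.exp Y)) 0 :=
  (hf x).differentiableAt (by simp)

theorem lD_add {F : Type*} [NormedAddCommGroup F] [NormedSpace ℝ F] (X : 𝔤) {f g : G → F}
    (hf : P.Smooth f) (hg : P.Smooth g) : P.lD X (f + g) = P.lD X f + P.lD X g := by
  funext x
  have h : fderiv ℝ (fun Y : 𝔤 => (f + g) (x * P.exp Y)) 0 =
      fderiv ℝ (fun Y : 𝔤 => f (x * P.exp Y)) 0 + fderiv ℝ (fun Y : 𝔤 => g (x * P.exp Y)) 0 :=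
    fderiv_add (differentiableAt_of_smooth hf x) (differentiableAt_of_smooth hg x)
  simp only [LieData.lD, LieData.rD, Pi.add_apply] at h ⊢
  rw [h, _root_.add_apply, neg_add]

theorem lD_smul {F : Type*} [NormedAddCommGroup F] [NormedSpace ℂ F] (X : 𝔤) (a : ℂ)
    {f : G → F} (hf : P.Smooth f) : P.lD X (a • f) = a • P.lD X f := by
  funext x
  have h : fderiv ℝ (fun Y : 𝔤 => (a • f) (x * P.exp Y)) 0 =
      a • fderiv ℝ (fun Y : 𝔤 => f (x * P.exp Y)) 0 :=
    fderiv_const_smul (differentiableAt_of_smooth hf x) a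
  simp only [LieData.lD, LieData.rD, Pi.smul_apply] at h ⊢
  rw [h, _root_.smul_apply, smul_neg]

variable [FiniteDimensional ℂ U]

/-- SMO-B (from SMO-A) -/
theorem smooth_of_mem_V {f : G → U} (hf : f ∈ V R) : P.Smooth f := by
  obtain ⟨h1, h2, h3⟩ := hf
  let χ : 𝔤 →ₗ[ℝ] ℂ :=
    { toFun := fun H => -(Complex.I * (R.ν H : ℝ) + (P.ρ H : ℝ))
      map_add' := fun X Y => by
        simp only [map_add, Complex.ofReal_add]
        ring
      map_smul' := fun a X => by
        simp only [map_smul, smul_eq_mul, Complex.ofReal_mul, RingHom.id_apply,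
          Complex.real_smul]
        ring }
  exact smooth_of_kfinite f h1 h3 χ (fun x H hH => h2.map_A x H hH) h2.map_N

omit [FiniteDimensional ℂ U] [T2Space G] in
theorem lt_mem_V' {f : G → U} (hf : f ∈ V R) {k : G} (hk : k ∈ P.K) : lt k f ∈ V R := by
  refine ⟨hf.1.comp (continuous_const.mul continuous_id), hf.2.1.lt k, ?_⟩
  obtain ⟨W, h1, h2, h3⟩ := hf.2.2
  exact ⟨W, h1, h3 k hk _ h2, h3⟩

/-- SMO-B: `V` is stable under the Lie algebra -/
theorem lD_mem_V {f : G → U} (hf : f ∈ V R) (X : 𝔤) : P.lD X f ∈ V R := by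
  have hs := smooth_of_mem_V hf
  refine ⟨LieData.Smooth.continuous _ (LieData.Smooth.lD _ hs X), IndFun.lD hs hf.2.1 X, ?_⟩
  obtain ⟨W, h1, h2, h3⟩ := hf.2.2
  -- the finite dimensional `K`-stable space `W ⊓ V`
  let W1 : Submodule ℂ (G → U) := W ⊓ V R
  have hW1 : FiniteDimensional ℂ W1 :=
    Submodule.finiteDimensional_of_le (inf_le_left : W ⊓ V R ≤ W)
  let D : 𝔤 → (W1 →ₗ[ℂ] (G → U)) := fun Y =>
    { toFun := fun w => P.lD Y (w : G → U)
      map_add' := fun v w => lD_add Y (smooth_of_mem_V v.2.2) (smooth_of_mem_V w.2.2)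
      map_smul' := fun a w => lD_smul Y a (smooth_of_mem_V w.2.2) }
  let b := Module.finBasis ℝ 𝔤
  let W2 : Submodule ℂ (G → U) := ⨆ i, LinearMap.range (D (b i))
  have hW2 : FiniteDimensional ℂ W2 := by
    dsimp only [W2]
    infer_instance
  have hmem : ∀ (Y : 𝔤) (w : W1), P.lD Y (w : G → U) ∈ W2 := by
    intro Y w
    have hY := b.sum_repr Y
    let T : 𝔤 →ₗ[ℝ] (G → U) :=
      { toFun := fun Y => P.lD Y (w : G → U)
        map_add' := fun Y Z => lD_add_left Y Z _
        map_smul' := fun a Y => lD_smul_left a Y _ }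
    have hT : T Y ∈ W2 := by
      rw [← hY, map_sum]
      refine Submodule.sum_mem _ fun i _ => ?_
      rw [map_smul]
      have h5 : T (b i) ∈ W2 :=
        Submodule.mem_iSup_of_mem (p := fun i => LinearMap.range (D (b i))) i ⟨w, rfl⟩
      exact (W2.restrictScalars ℝ).smul_mem _ h5
    exact hT
  have hfW : f ∈ W1 := ⟨h2, hf⟩
  refine ⟨W2, hW2, hmem X ⟨f, hfW⟩, ?_⟩
  intro k hk w hw
  have hle : W2 ≤ W2.comap
      ({ toFun := fun g => lt k g, map_add' := fun _ _ => rfl, map_smul' := fun _ _ => rfl } :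
        (G → U) →ₗ[ℂ] (G → U)) := by
    refine iSup_le fun i => ?_
    rintro _ ⟨w, rfl⟩
    rw [Submodule.mem_comap]
    have h6 : lt k (P.lD (b i) (w : G → U)) = P.lD (P.Ad k (b i)) (lt k (w : G → U)) := by
      funext x
      exact P.lt_lD (b i) k x
    change lt k (P.lD (b i) (w : G → U)) ∈ W2
    rw [h6]
    exact hmem _ ⟨lt k (w : G → U), h3 k hk _ w.2.1, lt_mem_V' w.2.2 hk⟩
  exact hle hw

end Pool.Agent.Helper65.SG
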